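import Pool.Agent.H20.GKKEx
import Pool.Agent.H20.GKKVar

open Pool.Agent.H20.GKK

namespace Pool.Agent.Results.MP_0e199b_al.Three

theorem result : IsGreatest {N : ℕ | ∀ n : ℕ, 1 ≤ n → n ≤ N →
    ∀ A : Matrix (Fin n) (Fin n) ℂ, IsTau A → Varga A} 3 := by
  refine ⟨fun n h1 hn A h => ?_, fun N hN => ?_⟩
  · interval_cases n
    · exact varga1 A h.1
    · exact varga2 A h.1
    · exact varga3 A h.1
  · by_contra h
    exact notVarga4 (hN 4 (by norm_num) (by omega) _ tau4)

end Pool.Agent.Results.MP_0e199b_al.Three
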